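import Mathlib

namespace Pool.Agent.Results.MP_71efc4_nt.P4NotP2

/-- `Σ A`: the set of all subset sums of `A`, the empty sum included. -/
def sigma {G : Type*} [AddCommGroup G] [DecidableEq G] (A : Finset G) : Finset G :=
  A.powerset.image fun B => ∑ x ∈ B, x

/-- `Σ^* A`: the set of all sums of non-empty subsets of `A`. -/
def sigmaStar {G : Type*} [AddCommGroup G] [DecidableEq G] (A : Finset G) : Finset G :=
  (A.powerset.filter fun B => B.Nonempty).image fun B => ∑ x ∈ B, x

/-- `c_0(G)`: the least `m` such that `Σ A = G` for every `A ⊆ G ∖ {0}` with `|A| ≥ m`. -/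
noncomputable def c0 (G : Type*) [AddCommGroup G] [Fintype G] [DecidableEq G] : ℕ :=
  sInf {m : ℕ | ∀ A : Finset G, (0 : G) ∉ A → m ≤ A.card → sigma A = Finset.univ}

/-- `c(G)`, the critical number: the least `m` such that `Σ^* A = G` for every `A ⊆ G ∖ {0}`
with `|A| ≥ m`. -/
noncomputable def crit (G : Type*) [AddCommGroup G] [Fintype G] [DecidableEq G] : ℕ :=
  sInf {m : ℕ | ∀ A : Finset G, (0 : G) ∉ A → m ≤ A.card → sigmaStar A = Finset.univ}

/-- `A` is a P2-set: `A ⊆ G ∖ {0}`, `|A| = c_0(G) - 1` and `Σ A ≠ G`. -/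
def IsP2 {G : Type*} [AddCommGroup G] [Fintype G] [DecidableEq G] (A : Finset G) : Prop :=
  (0 : G) ∉ A ∧ A.card + 1 = c0 G ∧ sigma A ≠ Finset.univ

/-- `A` is a P4-set: `A ⊆ G ∖ {0}`, `|A| = c(G) - 1` and `Σ^* A ≠ G`. -/
def IsP4 {G : Type*} [AddCommGroup G] [Fintype G] [DecidableEq G] (A : Finset G) : Prop :=
  (0 : G) ∉ A ∧ A.card + 1 = crit G ∧ sigmaStar A ≠ Finset.univ

lemma sigmaStar_mono {G : Type*} [AddCommGroup G] [DecidableEq G] {A B : Finset G} (h : A ⊆ B) :
    sigmaStar A ⊆ sigmaStar B := by
  unfold sigmaStar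
  apply Finset.image_subset_image
  intro C hC
  rw [Finset.mem_filter, Finset.mem_powerset] at hC ⊢
  exact ⟨hC.1.trans h, hC.2⟩

lemma mem_sigmaStar {G : Type*} [AddCommGroup G] [DecidableEq G] {A : Finset G} {g : G} :
    g ∈ sigmaStar A ↔ ∃ B ⊆ A, B.Nonempty ∧ ∑ x ∈ B, x = g := by
  simp [sigmaStar, and_assoc]

lemma sigmaStar_insert_subset {G : Type*} [AddCommGroup G] [DecidableEq G] {A : Finset G} {a : G}
    (ha : a ∉ A) : sigmaStar A ∪ ({a} ∪ (sigmaStar A).image (a + ·)) ⊆ sigmaStar (insert a A) := by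
  intro g hg
  rw [Finset.mem_union, Finset.mem_union, Finset.mem_singleton, Finset.mem_image] at hg
  rw [mem_sigmaStar]
  rcases hg with hg | rfl | ⟨h, hh, rfl⟩
  · obtain ⟨B, hB, hne, hs⟩ := mem_sigmaStar.1 hg
    exact ⟨B, hB.trans (Finset.subset_insert _ _), hne, hs⟩
  · exact ⟨{g}, by simp, by simp, by simp⟩
  · obtain ⟨B, hB, hne, hs⟩ := mem_sigmaStar.1 hh
    refine ⟨insert a B, Finset.insert_subset_insert _ hB, Finset.insert_nonempty _ _, ?_⟩
    rw [Finset.sum_insert (fun h => ha (hB h)), hs]

/-- a depth first search certifying that every set obtained from a given one by adding at least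
`k` elements of a list has `Σ^* = G` -/
def check : List (ZMod 10) → ℕ → Finset (ZMod 10) → Bool
  | [], k, S => decide (k ≠ 0) || decide (S = Finset.univ)
  | (a :: l), k, S => decide (S = Finset.univ) ||
      (check l (k - 1) (S ∪ ({a} ∪ S.image (a + ·))) && check l k S)

lemma check_sound : ∀ (l : List (ZMod 10)) (k : ℕ) (S : Finset (ZMod 10)), l.Nodup →
    check l k S = true → ∀ A0 : Finset (ZMod 10), (∀ x ∈ l, x ∉ A0) → S ⊆ sigmaStar A0 →
    ∀ B : Finset (ZMod 10), (∀ x ∈ B, x ∈ l) → k ≤ B.card →
    sigmaStar (A0 ∪ B) = Finset.univ := by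
  intro l
  induction l with
  | nil =>
    intro k S _ h A0 _ hS B hB hk
    have hB0 : B = ∅ := by
      apply Finset.eq_empty_of_forall_notMem
      intro x hx
      simpa using hB x hx
    subst hB0
    rw [Finset.card_empty] at hk
    simp only [check, Bool.or_eq_true, decide_eq_true_eq] at h
    rcases h with h | h
    · omega
    · rw [Finset.union_empty]
      exact Finset.univ_subset_iff.1 (h ▸ hS)
  | cons a l ih =>
    intro k S hnd h A0 hA0 hS B hB hk
    simp only [check, Bool.or_eq_true, Bool.and_eq_true, decide_eq_true_eq] at h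
    rcases h with h | ⟨h1, h2⟩
    · have h3 : Finset.univ ⊆ sigmaStar A0 := h ▸ hS
      exact Finset.univ_subset_iff.1 (h3.trans (sigmaStar_mono Finset.subset_union_left))
    · have hal : a ∉ l := (List.nodup_cons.1 hnd).1
      have haA : a ∉ A0 := hA0 a List.mem_cons_self
      by_cases haB : a ∈ B
      · have h4 := ih (k - 1) _ (List.nodup_cons.1 hnd).2 h1 (insert a A0) (by
            intro x hx hxA
            rcases Finset.mem_insert.1 hxA with rfl | hxA
            · exact hal hx
            · exact hA0 x (List.mem_cons_of_mem _ hx) hxA) (by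
            refine Finset.Subset.trans ?_ (sigmaStar_insert_subset haA)
            exact Finset.union_subset_union hS (Finset.union_subset_union Finset.Subset.rfl
              (Finset.image_subset_image hS))) (B.erase a) (by
            intro x hx
            rw [Finset.mem_erase] at hx
            rcases List.mem_cons.1 (hB x hx.2) with h | h
            · exact absurd h hx.1
            · exact h) (by
            rw [Finset.card_erase_of_mem haB]
            omega)
        have h5 : insert a A0 ∪ B.erase a = A0 ∪ B := by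
          rw [Finset.insert_union, ← Finset.union_insert, Finset.insert_erase haB]
        rwa [h5] at h4
      · apply ih k S (List.nodup_cons.1 hnd).2 h2 A0
          (fun x hx => hA0 x (List.mem_cons_of_mem _ hx)) hS B _ hk
        intro x hx
        rcases List.mem_cons.1 (hB x hx) with h | h
        · exact absurd (h ▸ hx) haB
        · exact h

lemma check_ten : check [1, 2, 3, 4, 5, 6, 7, 8, 9] 5 ∅ = true := by
  decide +kernel

lemma five_sets (A : Finset (ZMod 10)) (h0 : (0 : ZMod 10) ∉ A) (h5 : 5 ≤ A.card) :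
    sigmaStar A = Finset.univ := by
  have key : ∀ x : ZMod 10, x ≠ 0 → x ∈ [1, 2, 3, 4, 5, 6, 7, 8, 9] := by decide
  have h := check_sound [1, 2, 3, 4, 5, 6, 7, 8, 9] 5 ∅ (by decide) check_ten ∅ (by simp)
    (by simp) A (fun x hx => key x (fun h => h0 (h ▸ hx))) h5
  rwa [Finset.empty_union] at h

/-- the critical number of `Z/10` is `5` -/
lemma crit_ten : crit (ZMod 10) = 5 := by
  unfold crit
  apply le_antisymm
  · exact Nat.sInf_le (fun A h0 h5 => five_sets A h0 h5)
  · apply le_csInf
    · exact ⟨5, fun A h0 h5 => five_sets A h0 h5⟩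
    intro m hm
    by_contra hlt
    have h1 := hm {1, 2, 5, 6} (by decide) (by
      have : ({1, 2, 5, 6} : Finset (ZMod 10)).card = 4 := by decide
      omega)
    have h2 : sigmaStar ({1, 2, 5, 6} : Finset (ZMod 10)) ≠ Finset.univ := by decide
    exact h2 h1

/-- **Q1 is false as posed.** It is not true that in every finite abelian group of order at least
`10` every P4-set is a P2-set. (Counterexample: `{1, 2, 5, 6}` in `Z/10`.) -/
theorem result : ¬ ∀ (G : Type) [AddCommGroup G] [Fintype G] [DecidableEq G],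
    10 ≤ Fintype.card G → ∀ A : Finset G, IsP4 A → IsP2 A := by
  intro h
  have h1 := h (ZMod 10) (by simp [ZMod.card]) {1, 2, 5, 6} ⟨by decide, by
    rw [crit_ten]; decide, by decide⟩
  exact h1.2.2 (by decide)

end Pool.Agent.Results.MP_71efc4_nt.P4NotP2
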